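import Mathlib
import Pool.Agent.R139.ValDelta

/-!
# Valuated Delta-matroids from odd-dimensional Hermitian isotropic Grassmannians
-/

set_option autoImplicit false

namespace Pool.Agent.Results.MP_973d57_co.HermitianGrassmannian

open Pool.Agent.R139.ValDelta Matrix

/-- The hypotheses on the Hermitian space `(V, b)` and its basis
`e_1, …, e_n, f_1, …, f_n, g`, indexed by `Fin n ⊕ Fin n ⊕ Unit`. -/
structure IsStandard {K V : Type*} [Field K] [StarRing K] [AddCommGroup V] [Module K V]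
    (b : V →ₗ[K] V →ₛₗ[starRingEnd K] K) {n : ℕ}
    (𝓑 : Module.Basis (Fin n ⊕ Fin n ⊕ Unit) K V) (α : K) : Prop where
  /-- `b` is Hermitian -/
  symm : ∀ x y, b x y = star (b y x)
  /-- `b (e_i, e_j) = 0` -/
  ee : ∀ i j : Fin n, b (𝓑 (Sum.inl i)) (𝓑 (Sum.inl j)) = 0
  /-- `b (f_i, f_j) = 0` -/
  ff : ∀ i j : Fin n, b (𝓑 (Sum.inr (Sum.inl i))) (𝓑 (Sum.inr (Sum.inl j))) = 0
  /-- `b (e_i, f_j) = 1` if `i = j` and `0` otherwise -/
  ef : ∀ i j : Fin n, b (𝓑 (Sum.inl i)) (𝓑 (Sum.inr (Sum.inl j))) = if i = j then 1 else 0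
  /-- `b (e_i, g) = 0` -/
  eg : ∀ i : Fin n, b (𝓑 (Sum.inl i)) (𝓑 (Sum.inr (Sum.inr ()))) = 0
  /-- `b (f_i, g) = 0` -/
  fg : ∀ i : Fin n, b (𝓑 (Sum.inr (Sum.inl i))) (𝓑 (Sum.inr (Sum.inr ()))) = 0
  /-- `b (g, g) = α` -/
  gg : b (𝓑 (Sum.inr (Sum.inr ()))) (𝓑 (Sum.inr (Sum.inr ()))) = α
  /-- `α ≠ 0` -/
  ne : α ≠ 0

/-- Let `K` be a field with an involution `star` and a valuation `ν : K → ℝ ∪ {∞}` preserved by it,
let `(V, b)` be a Hermitian space of dimension `2 n + 1` with a basis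
`e_1, …, e_n, f_1, …, f_n, g` as in `IsStandard`, let `L` be an isotropic subspace with a basis
`ℓ_1, …, ℓ_n` and let `p S` be the valuation of the maximal minor, on the columns `e_i` (`i ∈ S`)
and `f_i` (`i ∉ S`), of the matrix of coordinates of the `ℓ_k`. Then `p` is a valuated
`Δ`-matroid. -/
theorem result {K V : Type*} [Field K] [StarRing K] [AddCommGroup V] [Module K V]
    (ν : AddValuation K (WithTop ℝ)) (hν : ∀ a, ν (star a) = ν a)
    (b : V →ₗ[K] V →ₛₗ[starRingEnd K] K) {n : ℕ}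
    (𝓑 : Module.Basis (Fin n ⊕ Fin n ⊕ Unit) K V) (α : K) (hb : IsStandard b 𝓑 α)
    (L : Submodule K V) (hL : ∀ x ∈ L, ∀ y ∈ L, b x y = 0) (ℓ : Module.Basis (Fin n) K L) :
    IsValuatedDeltaMatroid fun S : Finset (Fin n) => ν (Matrix.det (Matrix.of fun k i : Fin n =>
      if i ∈ S then 𝓑.repr (ℓ k : V) (Sum.inl i) else 𝓑.repr (ℓ k : V) (Sum.inr (Sum.inl i)))) := by
  have h := main ν hν (Matrix.of fun k i : Fin n => 𝓑.repr (ℓ k : V) (Sum.inl i))
    (Matrix.of fun k i : Fin n => 𝓑.repr (ℓ k : V) (Sum.inr (Sum.inl i)))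
    (fun k => 𝓑.repr (ℓ k : V) (Sum.inr (Sum.inr ()))) α ?_
  · exact h
  · intro k l
    have fe : ∀ i j : Fin n, b (𝓑 (Sum.inr (Sum.inl i))) (𝓑 (Sum.inl j)) =
        if i = j then 1 else 0 := by
      intro i j
      rw [hb.symm, hb.ef]
      by_cases h : i = j
      · subst h; simp
      · rw [if_neg h, if_neg (Ne.symm h), star_zero]
    have ge : ∀ i : Fin n, b (𝓑 (Sum.inr (Sum.inr ()))) (𝓑 (Sum.inl i)) = 0 := by
      intro i; rw [hb.symm, hb.eg, star_zero]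
    have gf : ∀ i : Fin n, b (𝓑 (Sum.inr (Sum.inr ()))) (𝓑 (Sum.inr (Sum.inl i))) = 0 := by
      intro i; rw [hb.symm, hb.fg, star_zero]
    have h0 := hL _ (ℓ k).2 _ (ℓ l).2
    have expand : ∀ x y : V, b x y =
        ∑ i, ∑ j, 𝓑.repr x i * (star (𝓑.repr y j) * b (𝓑 i) (𝓑 j)) := by
      intro x y
      conv_lhs => rw [← 𝓑.sum_repr x, ← 𝓑.sum_repr y]
      simp only [map_sum, LinearMap.sum_apply, map_smul, LinearMap.smul_apply, map_smulₛₗ,
        smul_eq_mul, starRingEnd_apply]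
      rw [Finset.sum_comm]
      refine Finset.sum_congr rfl fun i _ => ?_
      rw [Finset.mul_sum]
      exact Finset.sum_congr rfl fun j _ => by ring
    rw [expand] at h0
    simp only [Fintype.sum_sum_type, Finset.univ_unique, Finset.sum_singleton, hb.ee, hb.ff, hb.ef,
      hb.eg, hb.fg, hb.gg, fe, ge, gf, mul_zero, Finset.sum_const_zero, add_zero, zero_add,
      mul_ite, mul_one, Finset.sum_ite_eq, Finset.mem_univ, if_true] at h0
    simp only [Matrix.of_apply, Finset.sum_add_distrib]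
    linear_combination h0

end Pool.Agent.Results.MP_973d57_co.HermitianGrassmannian
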